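import Pool.Agent.Helper96.SZ.Asm
import Pool.Agent.Helper96.FR.Rge3
import Pool.Agent.Helper66.RK.StmtDef

/-!
# Project SZ (MP_0f6f3f_an): `PSL(n, ℤ)` is a lattice in `PSL(n, ℝ)`
-/

set_option autoImplicit false

open Matrix MeasureTheory Topology
open scoped ENNReal
open Pool.Agent.Helper96.FR Pool.Agent.Helper66.RKS

namespace Pool.Agent.Helper96.SZ

theorem finite_center {n : ℕ} (hn : 0 < n) :
    (Subgroup.center (SpecialLinearGroup (Fin n) ℝ) : Set (SpecialLinearGroup (Fin n) ℝ)).Finite := by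
  have h : (Subtype.val '' (Subgroup.center (SpecialLinearGroup (Fin n) ℝ) : Set (SpecialLinearGroup (Fin n) ℝ))).Finite := by
    refine Set.Finite.subset (Set.toFinite {(1 : Matrix (Fin n) (Fin n) ℝ), -1}) ?_
    rintro _ ⟨A, hA, rfl⟩
    obtain ⟨z, hz, hzA⟩ := Matrix.SpecialLinearGroup.mem_center_iff.1 hA
    rw [Fintype.card_fin] at hz
    have h1 : |z| = 1 := by
      have h2 := congrArg abs hz
      rw [abs_pow, abs_one] at h2
      exact (pow_eq_one_iff_of_nonneg (abs_nonneg z) hn.ne').1 h2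
    rw [Set.mem_insert_iff, Set.mem_singleton_iff, ← hzA]
    rcases eq_or_eq_neg_of_abs_eq h1 with h | h
    · left
      rw [h, map_one]
    · right
      rw [h, map_neg, map_one]
  exact Set.Finite.of_finite_image h Subtype.val_injective.injOn

theorem map_center {n : ℕ} : Subgroup.center (SpecialLinearGroup (Fin n) ℤ) ≤
    (Subgroup.center (SpecialLinearGroup (Fin n) ℝ)).comap (SpecialLinearGroup.map (Int.castRingHom ℝ) (n := Fin n)) := by
  intro A hA
  obtain ⟨z, hz, hzA⟩ := Matrix.SpecialLinearGroup.mem_center_iff.1 hA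
  rw [Subgroup.mem_comap, Matrix.SpecialLinearGroup.mem_center_iff]
  refine ⟨(z : ℝ), by exact_mod_cast congrArg (Int.cast : ℤ → ℝ) hz, ?_⟩
  show _ = A.1.map (Int.castRingHom ℝ)
  rw [← hzA]
  ext i j
  rw [scalar_apply, scalar_apply, Matrix.map_apply, diagonal_apply, diagonal_apply]
  split_ifs <;> simp

/-- `PSL(n, ℤ) → PSL(n, ℝ)` -/
def incl (n : ℕ) : PSLZ n →* ProjectiveSpecialLinearGroup (Fin n) ℝ :=
  QuotientGroup.map (Subgroup.center (SpecialLinearGroup (Fin n) ℤ)) (Subgroup.center (SpecialLinearGroup (Fin n) ℝ))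
    (SpecialLinearGroup.map (Int.castRingHom ℝ)) map_center

theorem incl_injective {n : ℕ} (hn : 0 < n) : Function.Injective (incl n) := by
  rw [injective_iff_map_eq_one]
  intro x hx
  obtain ⟨A, rfl⟩ := QuotientGroup.mk_surjective x
  have h1 : (SpecialLinearGroup.map (Int.castRingHom ℝ) A : SpecialLinearGroup (Fin n) ℝ) ∈
      Subgroup.center (SpecialLinearGroup (Fin n) ℝ) := (QuotientGroup.eq_one_iff _).1 hx
  obtain ⟨z, hz, hzA⟩ := Matrix.SpecialLinearGroup.mem_center_iff.1 h1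
  have hzA : scalar (Fin n) z = A.1.map (Int.castRingHom ℝ) := hzA
  have h2 : ∀ i j : Fin n, ((A.1 i j : ℤ) : ℝ) = if i = j then z else 0 := by
    intro i j
    have h3 : (scalar (Fin n) z : Matrix (Fin n) (Fin n) ℝ) i j = A.1.map (Int.castRingHom ℝ) i j := by rw [hzA]
    rw [scalar_apply, diagonal_apply, Matrix.map_apply] at h3
    exact h3.symm
  refine (QuotientGroup.eq_one_iff _).2 ?_
  rw [Matrix.SpecialLinearGroup.mem_center_iff]
  have hz0 : ((A.1 ⟨0, hn⟩ ⟨0, hn⟩ : ℤ) : ℝ) = z := by rw [h2, if_pos rfl]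
  refine ⟨A.1 ⟨0, hn⟩ ⟨0, hn⟩, ?_, ?_⟩
  · have h3 : (((A.1 ⟨0, hn⟩ ⟨0, hn⟩ : ℤ) ^ (Fintype.card (Fin n)) : ℤ) : ℝ) = ((1 : ℤ) : ℝ) := by
      rw [Int.cast_pow, hz0, hz, Int.cast_one]
    exact Int.cast_injective h3
  · ext i j
    rw [scalar_apply, diagonal_apply]
    apply Int.cast_injective (α := ℝ)
    rw [h2]
    split_ifs
    · exact hz0
    · exact Int.cast_zero

/-- `PSL(n, ℤ)` is a lattice in `PSL(n, ℝ)`. -/
theorem lattice_PSLZ {n : ℕ} (hn : 0 < n) : FR.Lattice (incl n).range := by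
  have h := lattice_map (SLZ n) (lattice_SLZ hn) (QuotientGroup.mk' (Subgroup.center (SpecialLinearGroup (Fin n) ℝ)))
    QuotientGroup.continuous_mk QuotientGroup.isOpenMap_coe (QuotientGroup.mk'_surjective _)
    (by rw [QuotientGroup.ker_mk']; exact finite_center hn)
  have e : (SLZ n).map (QuotientGroup.mk' (Subgroup.center (SpecialLinearGroup (Fin n) ℝ))) = (incl n).range := by
    ext x
    constructor
    · rintro ⟨_, ⟨A, rfl⟩, rfl⟩
      exact ⟨(A : SpecialLinearGroup (Fin n) ℤ ⧸ Subgroup.center (SpecialLinearGroup (Fin n) ℤ)), rfl⟩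
    · rintro ⟨y, rfl⟩
      obtain ⟨A, rfl⟩ := QuotientGroup.mk_surjective y
      exact ⟨_, ⟨A, rfl⟩, rfl⟩
  rw [← e]
  exact h

end Pool.Agent.Helper96.SZ
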