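import Pool.Agent.Helper96.SZ.Mul

/-!
# Block SZ-CONE: the cone measure on `SL(n, ℝ)`

`psi C = (det A)^(-1/n) A`, `A` the matrix with columns `C`, if `0 < det A ≤ 1`; `mu E = volume {C | 0 < det A, det A ≤ 1, psi C ∈ E}`.
PROOF. `mu` is the map (`Measure.map` for the Borel structure, of a measurable function into `SpecialLinearGroup (Fin n) ℝ`: e.g. `C ↦ ⟨psi C, _⟩` if `0 < det`, `1` otherwise) of the restriction of `volume` to `{C | 0 < det A ≤ 1}`.
Left and right multiplication by `h ∈ SL(n, ℝ)` preserve `det A`, commute with `psi` and preserve the Lebesgue measure of the space of matrices (block SZ-MUL, file `Mul.lean`). Hence the invariance. `mu Set.univ ≠ 0`: `{C | 0 < det A < 1}` is open and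
nonempty (`A = diag(1/2, 1, ..., 1)`, `n > 0`).
-/

set_option autoImplicit false

open Matrix MeasureTheory

namespace Pool.Agent.Helper96.SZ

/-- the cone over a set `E` of matrices of determinant one -/
def cone {n : ℕ} (E : Set (Matrix (Fin n) (Fin n) ℝ)) : Set (Fin n → Fin n → ℝ) :=
  {C | 0 < (mat C).det ∧ (mat C).det ≤ 1 ∧ ((mat C).det ^ (-(1 : ℝ) / n)) • mat C ∈ E}

private theorem cont_mat14 {n : ℕ} : Continuous (mat (m := n)) :=
  continuous_matrix fun i j => (_root_.continuous_apply i).comp (_root_.continuous_apply j)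

private theorem cont_det14 {n : ℕ} : Continuous fun C : Fin n → Fin n → ℝ => (mat C).det := cont_mat14.matrix_det

private theorem det_scale14 {n : ℕ} (hn : 0 < n) (A : Matrix (Fin n) (Fin n) ℝ) (hA : 0 < A.det) :
    (A.det ^ (-(1 : ℝ) / n) • A).det = 1 := by
  have hn' : (n : ℝ) ≠ 0 := by exact_mod_cast hn.ne'
  rw [Matrix.det_smul, Fintype.card_fin, ← Real.rpow_natCast, ← Real.rpow_mul hA.le, div_mul_cancel₀ _ hn',
    Real.rpow_neg_one, inv_mul_cancel₀ hA.ne']

open scoped Classical in
/-- the projection to `SL(n, ℝ)` -/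
private noncomputable def Psi14 {n : ℕ} (hn : 0 < n) (C : Fin n → Fin n → ℝ) : SpecialLinearGroup (Fin n) ℝ :=
  if h : 0 < (mat C).det then ⟨(mat C).det ^ (-(1 : ℝ) / n) • mat C, det_scale14 hn _ h⟩ else 1

private theorem Psi_pos14 {n : ℕ} (hn : 0 < n) (C : Fin n → Fin n → ℝ) (h : 0 < (mat C).det) :
    (Psi14 hn C).1 = (mat C).det ^ (-(1 : ℝ) / n) • mat C := by
  unfold Psi14
  rw [dif_pos h]

private theorem Psi_neg14 {n : ℕ} (hn : 0 < n) (C : Fin n → Fin n → ℝ) (h : ¬ 0 < (mat C).det) :
    Psi14 hn C = 1 := by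
  unfold Psi14
  exact dif_neg h

private theorem measurable_Psi14 {n : ℕ} (hn : 0 < n) :
    @Measurable _ _ _ (borel (SpecialLinearGroup (Fin n) ℝ)) (Psi14 hn) := by
  letI : MeasurableSpace (SpecialLinearGroup (Fin n) ℝ) := borel _
  haveI : BorelSpace (SpecialLinearGroup (Fin n) ℝ) := ⟨rfl⟩
  have hU : IsOpen {C : Fin n → Fin n → ℝ | 0 < (mat C).det} := isOpen_lt continuous_const cont_det14
  refine measurable_of_restrict_of_restrict_compl hU.measurableSet ?_ ?_
  · refine Continuous.measurable ?_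
    have hind : Topology.IsInducing (fun g : SpecialLinearGroup (Fin n) ℝ => g.1) :=
      Topology.IsInducing.subtypeVal
    refine hind.continuous_iff.2 ?_
    have h1 : (fun g : SpecialLinearGroup (Fin n) ℝ => g.1) ∘
        ({C : Fin n → Fin n → ℝ | 0 < (mat C).det}).domRestrict (Psi14 hn) =
        fun C : {C : Fin n → Fin n → ℝ | 0 < (mat C).det} => (mat C.1).det ^ (-(1 : ℝ) / n) • mat C.1 :=
      funext fun C => Psi_pos14 hn C.1 C.2
    rw [h1]
    have h2 : Continuous fun C : {C : Fin n → Fin n → ℝ | 0 < (mat C).det} => (mat C.1).det ^ (-(1 : ℝ) / n) :=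
      (cont_det14.comp continuous_subtype_val).rpow_const fun C => Or.inl (ne_of_gt C.2)
    have h3 : Continuous fun C : {C : Fin n → Fin n → ℝ | 0 < (mat C).det} => mat C.1 :=
      cont_mat14.comp continuous_subtype_val
    exact h2.smul h3
  · have h1 : ({C : Fin n → Fin n → ℝ | 0 < (mat C).det}ᶜ).domRestrict (Psi14 hn) = fun _ => 1 :=
      funext fun C => Psi_neg14 hn C.1 C.2
    rw [h1]
    exact measurable_const

/-- the set of the matrices with determinant in `(0, 1]` -/
private def Dset14 (n : ℕ) : Set (Fin n → Fin n → ℝ) := {C | 0 < (mat C).det ∧ (mat C).det ≤ 1}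

private theorem meas_Dset14 (n : ℕ) : MeasurableSet (Dset14 n) :=
  ((isOpen_lt continuous_const cont_det14).measurableSet).inter
    ((isClosed_le cont_det14 continuous_const).measurableSet)

private theorem cone_eq14 {n : ℕ} (hn : 0 < n) (E : Set (SpecialLinearGroup (Fin n) ℝ)) :
    cone ((fun g => g.1) '' E) = Psi14 hn ⁻¹' E ∩ Dset14 n := by
  ext C
  constructor
  · rintro ⟨h1, h2, g, hg, h3⟩
    refine ⟨?_, h1, h2⟩
    have h4 : Psi14 hn C = g := by
      apply Subtype.ext
      rw [Psi_pos14 hn C h1]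
      exact h3.symm
    change Psi14 hn C ∈ E
    rw [h4]
    exact hg
  · rintro ⟨h3, h1, h2⟩
    exact ⟨h1, h2, Psi14 hn C, h3, Psi_pos14 hn C h1⟩

theorem measurableSet_cone {n : ℕ} (hn : 0 < n) {E : Set (SpecialLinearGroup (Fin n) ℝ)} (hE : MeasurableSet[borel _] E) :
    MeasurableSet (cone ((fun g => g.1) '' E)) := by
  rw [cone_eq14 hn]
  exact (measurable_Psi14 hn hE).inter (meas_Dset14 n)

theorem exists_cone {n : ℕ} (hn : 0 < n) : ∃ mu : @Measure (SpecialLinearGroup (Fin n) ℝ) (borel _),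
    (∀ E : Set (SpecialLinearGroup (Fin n) ℝ), MeasurableSet[borel _] E → mu E = volume (cone ((fun g => g.1) '' E))) ∧
    (∀ (h : SpecialLinearGroup (Fin n) ℝ) (E : Set (SpecialLinearGroup (Fin n) ℝ)), MeasurableSet[borel _] E →
      mu ((fun g => h * g) ⁻¹' E) = mu E ∧ mu ((fun g => g * h) ⁻¹' E) = mu E) ∧ mu Set.univ ≠ 0 := by
  letI : MeasurableSpace (SpecialLinearGroup (Fin n) ℝ) := borel _
  haveI : BorelSpace (SpecialLinearGroup (Fin n) ℝ) := ⟨rfl⟩
  have hmu : ∀ E : Set (SpecialLinearGroup (Fin n) ℝ), MeasurableSet E →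
      (Measure.map (Psi14 hn) (volume.restrict (Dset14 n))) E = volume (cone ((fun g => g.1) '' E)) := by
    intro E hE
    rw [Measure.map_apply (measurable_Psi14 hn) hE, Measure.restrict_apply (measurable_Psi14 hn hE), cone_eq14 hn]
  refine ⟨Measure.map (Psi14 hn) (volume.restrict (Dset14 n)), hmu, ?_, ?_⟩
  · intro h E hE
    have hdet : |h.1.det| = 1 := by rw [h.2, abs_one]
    constructor
    · rw [hmu _ ((continuous_const_mul h).measurable hE), hmu _ hE,
        ← (measurePreserving_mulLeft h.1 hdet).measure_preimage (measurableSet_cone hn hE).nullMeasurableSet]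
      congr 1
      ext C
      have h1 : (mat (cols (h.1 * mat C))).det = (mat C).det := by
        rw [mat_cols, Matrix.det_mul, h.2, one_mul]
      constructor
      · rintro ⟨h2, h3, g, hg, h4⟩
        refine ⟨by rw [h1]; exact h2, by rw [h1]; exact h3, h * g, hg, ?_⟩
        have h4' : g.1 = (mat C).det ^ (-(1 : ℝ) / n) • mat C := h4
        change (h * g).1 = (mat (cols (h.1 * mat C))).det ^ (-(1 : ℝ) / n) • (h.1 * mat C)
        rw [h1, ← Matrix.mul_smul, ← h4']
        rfl
      · rintro ⟨h2, h3, g, hg, h4⟩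
        rw [h1] at h2 h3
        have h4' : g.1 = (mat (cols (h.1 * mat C))).det ^ (-(1 : ℝ) / n) • (h.1 * mat C) := h4
        rw [h1, ← Matrix.mul_smul] at h4'
        refine ⟨h2, h3, h⁻¹ * g, ?_, ?_⟩
        · change h * (h⁻¹ * g) ∈ E
          rw [mul_inv_cancel_left]
          exact hg
        · change (h⁻¹ * g).1 = (mat C).det ^ (-(1 : ℝ) / n) • mat C
          have h5 : h⁻¹ * g = ⟨_, det_scale14 hn (mat C) h2⟩ := by
            rw [inv_mul_eq_iff_eq_mul]
            exact Subtype.ext h4'
          rw [h5]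
    · rw [hmu _ ((continuous_mul_const h).measurable hE), hmu _ hE,
        ← (measurePreserving_mulRight h.1 hdet).measure_preimage (measurableSet_cone hn hE).nullMeasurableSet]
      congr 1
      ext C
      have h1 : (mat (cols (mat C * h.1))).det = (mat C).det := by
        rw [mat_cols, Matrix.det_mul, h.2, mul_one]
      constructor
      · rintro ⟨h2, h3, g, hg, h4⟩
        refine ⟨by rw [h1]; exact h2, by rw [h1]; exact h3, g * h, hg, ?_⟩
        have h4' : g.1 = (mat C).det ^ (-(1 : ℝ) / n) • mat C := h4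
        change (g * h).1 = (mat (cols (mat C * h.1))).det ^ (-(1 : ℝ) / n) • (mat C * h.1)
        rw [h1, ← Matrix.smul_mul, ← h4']
        rfl
      · rintro ⟨h2, h3, g, hg, h4⟩
        rw [h1] at h2 h3
        have h4' : g.1 = (mat (cols (mat C * h.1))).det ^ (-(1 : ℝ) / n) • (mat C * h.1) := h4
        rw [h1, ← Matrix.smul_mul] at h4'
        refine ⟨h2, h3, g * h⁻¹, ?_, ?_⟩
        · change g * h⁻¹ * h ∈ E
          rw [inv_mul_cancel_right]
          exact hg
        · change (g * h⁻¹).1 = (mat C).det ^ (-(1 : ℝ) / n) • mat C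
          have h5 : g * h⁻¹ = ⟨_, det_scale14 hn (mat C) h2⟩ := by
            rw [mul_inv_eq_iff_eq_mul]
            exact Subtype.ext h4'
          rw [h5]
  · rw [hmu _ MeasurableSet.univ, cone_eq14 hn, Set.preimage_univ, Set.univ_inter]
    have hO : IsOpen {C : Fin n → Fin n → ℝ | 0 < (mat C).det ∧ (mat C).det < 1} :=
      (isOpen_lt continuous_const cont_det14).inter (isOpen_lt cont_det14 continuous_const)
    have hne : {C : Fin n → Fin n → ℝ | 0 < (mat C).det ∧ (mat C).det < 1}.Nonempty := by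
      refine ⟨cols ((1 / 2 : ℝ) • (1 : Matrix (Fin n) (Fin n) ℝ)), ?_⟩
      change 0 < (mat (cols _)).det ∧ (mat (cols _)).det < 1
      rw [mat_cols, Matrix.det_smul, Matrix.det_one, mul_one, Fintype.card_fin]
      exact ⟨by positivity, pow_lt_one₀ (by norm_num) (by norm_num) hn.ne'⟩
    refine ((hO.measure_pos volume hne).trans_le (measure_mono ?_)).ne'
    exact fun C hC => ⟨hC.1, hC.2.le⟩

end Pool.Agent.Helper96.SZ
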