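import Pool.Agent.Helper96.SZ.Step
import Pool.Agent.Helper96.SZ.Cone
import Pool.Agent.Helper96.FR.Lat4
import Pool.Agent.Helper96.FR.Rge2

/-!
# Project SZ (MP_0f6f3f_an): `SL(n, ℤ)` is a lattice in `SL(n, ℝ)`
-/

set_option autoImplicit false

open Matrix MeasureTheory Topology
open scoped ENNReal
open Pool.Agent.Helper96.FR

namespace Pool.Agent.Helper96.SZ

/-- the group `SL(n, ℤ)` as a subgroup of `SL(n, ℝ)` -/
def SLZ (n : ℕ) : Subgroup (SpecialLinearGroup (Fin n) ℝ) := (SpecialLinearGroup.map (Int.castRingHom ℝ) (n := Fin n)).range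

theorem rl_mul {n : ℕ} (g h : SpecialLinearGroup (Fin n) ℤ) : rl (g * h) = rl g * rl h := by
  unfold rl
  rw [Matrix.SpecialLinearGroup.coe_mul, Matrix.map_mul]

theorem rl_one {n : ℕ} : rl (1 : SpecialLinearGroup (Fin n) ℤ) = 1 := by
  unfold rl
  rw [Matrix.SpecialLinearGroup.coe_one]
  exact Matrix.map_one _ (map_zero _) (map_one _)

theorem rl_det {n : ℕ} (g : SpecialLinearGroup (Fin n) ℤ) : (rl g).det = 1 := by
  have h := RingHom.map_det (Int.castRingHom ℝ) g.1
  rw [g.2, map_one] at h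
  exact h.symm

theorem rl_inj {n : ℕ} {g h : SpecialLinearGroup (Fin n) ℤ} (e : rl g = rl h) : g = h := by
  refine Subtype.ext ?_
  exact Matrix.map_injective (Int.cast_injective (α := ℝ)) e

/-- the element of `SLZ` -/
def el {n : ℕ} (g : SpecialLinearGroup (Fin n) ℤ) : SLZ n := ⟨SpecialLinearGroup.map (Int.castRingHom ℝ) g, ⟨g, rfl⟩⟩

theorem el_val {n : ℕ} (g : SpecialLinearGroup (Fin n) ℤ) : ((el g : SpecialLinearGroup (Fin n) ℝ)).1 = rl g := rfl

/-- The strict fundamental domain has finite measure. -/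
theorem measure_finite {n : ℕ} (hn : 0 < n)
    (mu : @Measure (SpecialLinearGroup (Fin n) ℝ) (borel _))
    (hmu : ∀ E : Set (SpecialLinearGroup (Fin n) ℝ), MeasurableSet[borel _] E → mu E = volume (cone ((fun g => g.1) '' E)))
    {D : Set (SpecialLinearGroup (Fin n) ℝ)} (hD : @IsSFD _ _ (borel _) (SLZ n) D) : mu D ≠ ⊤ := by
  let mG : MeasurableSpace (SpecialLinearGroup (Fin n) ℝ) := borel _
  obtain ⟨S, hS, hSfin, hred⟩ := pm hn
  rw [hmu D hD.meas]
  have hcm := measurableSet_cone hn hD.meas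
  have hcount : Countable (SpecialLinearGroup (Fin n) ℤ) := by
    have : Countable (Matrix (Fin n) (Fin n) ℤ) := inferInstanceAs (Countable (Fin n → Fin n → ℤ))
    exact Subtype.countable
  -- pieces
  let R : SpecialLinearGroup (Fin n) ℤ → (Fin n → Fin n → ℝ) → (Fin n → Fin n → ℝ) := fun g C => cols (mat C * rl g)
  have hR : ∀ g, MeasurePreserving (R g) volume volume := fun g =>
    measurePreserving_mulRight (rl g) (by rw [rl_det, abs_one])
  have hRR : ∀ g C, R g⁻¹ (R g C) = C := by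
    intro g C
    show cols (mat (cols (mat C * rl g)) * rl g⁻¹) = C
    rw [mat_cols, Matrix.mul_assoc, ← rl_mul, mul_inv_cancel, rl_one, Matrix.mul_one, cols_mat]
  let E : SpecialLinearGroup (Fin n) ℤ → Set (Fin n → Fin n → ℝ) := fun g => R g⁻¹ ⁻¹' cone ((fun g => g.1) '' D)
  have hE : ∀ g, MeasurableSet (E g) := fun g => (hR g⁻¹).measurable hcm
  have hdisj : Pairwise (Function.onFun Disjoint fun g => S ∩ E g) := by
    intro g g' hgg
    refine Set.disjoint_left.2 fun C hC hC' => hgg ?_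
    have key : ∀ k : SpecialLinearGroup (Fin n) ℤ, C ∈ E k → ∃ x : SpecialLinearGroup (Fin n) ℝ,
        x.1 = ((mat C).det ^ (-(1 : ℝ) / n)) • mat C ∧ x * (el k : SpecialLinearGroup (Fin n) ℝ)⁻¹ ∈ D := by
      rintro k ⟨h1, h2, d, hd, hd2⟩
      have hd2 : d.1 = ((mat (R k⁻¹ C)).det ^ (-(1 : ℝ) / n)) • mat (R k⁻¹ C) := hd2
      have hm : mat (R k⁻¹ C) = mat C * rl k⁻¹ := rfl
      have hdet : (mat (R k⁻¹ C)).det = (mat C).det := by
        rw [hm, Matrix.det_mul, rl_det, mul_one]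
      rw [hdet, hm] at hd2
      refine ⟨d * (el k : SpecialLinearGroup (Fin n) ℝ), ?_, by rwa [mul_inv_cancel_right]⟩
      show d.1 * rl k = _
      rw [hd2, Matrix.smul_mul, Matrix.mul_assoc, ← rl_mul, inv_mul_cancel, rl_one, Matrix.mul_one]
    obtain ⟨x, hx, hxD⟩ := key g hC.2
    obtain ⟨x', hx', hxD'⟩ := key g' hC'.2
    have e : x = x' := Subtype.ext (hx.trans hx'.symm)
    subst e
    have h3 := hD.uniq x (el g) (el g') hxD hxD'
    refine rl_inj ?_
    rw [← el_val, ← el_val, h3]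
  have hsub : cone ((fun g => g.1) '' D) ⊆ ⋃ g, R g ⁻¹' (S ∩ E g) := by
    intro C hC
    obtain ⟨g, hg⟩ := hred (mat C) (abs_pos.2 hC.1.ne') (by rw [abs_of_pos hC.1]; exact hC.2.1)
    refine Set.mem_iUnion.2 ⟨g, hg, ?_⟩
    show R g⁻¹ (R g C) ∈ cone ((fun g => g.1) '' D)
    rw [hRR]
    exact hC
  refine ne_top_of_le_ne_top hSfin ?_
  calc volume (cone ((fun g => g.1) '' D)) ≤ ∑' g, volume (R g ⁻¹' (S ∩ E g)) :=
        (measure_mono hsub).trans (measure_iUnion_le _)
    _ = ∑' g, volume (S ∩ E g) := tsum_congr fun g => (hR g).measure_preimage (hS.inter (hE g)).nullMeasurableSet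
    _ = volume (⋃ g, (S ∩ E g)) := (measure_iUnion hdisj fun g => hS.inter (hE g)).symm
    _ ≤ volume S := measure_mono (Set.iUnion_subset fun g => Set.inter_subset_left)

/-- `SL(n, ℤ)` is a lattice in `SL(n, ℝ)`. -/
theorem lattice_SLZ {n : ℕ} (hn : 0 < n) : FR.Lattice (SLZ n) := by
  let mG : MeasurableSpace (SpecialLinearGroup (Fin n) ℝ) := borel _
  have bG : BorelSpace (SpecialLinearGroup (Fin n) ℝ) := ⟨rfl⟩
  have hd : DiscreteTopology (SLZ n) := Matrix.SpecialLinearGroup.discreteSpecialLinearGroupIntRangeSL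
  have hcount : Countable (SLZ n) := countable_of_discrete _
  obtain ⟨D, hD⟩ := exists_isSFD (SLZ n)
  obtain ⟨mu, hmu, hinv, hne⟩ := exists_cone hn
  have h1 : mu.IsMulLeftInvariant := by
    refine ⟨fun h => ?_⟩
    ext E hE
    rw [Measure.map_apply (measurable_const_mul h) hE]
    exact (hinv h E hE).1
  have h2 : mu.IsMulRightInvariant := by
    refine ⟨fun h => ?_⟩
    ext E hE
    rw [Measure.map_apply (measurable_mul_const h) hE]
    exact (hinv h E hE).2
  refine lattice_of_SFD (SLZ n) mu hD ?_ (measure_finite hn mu hmu hD)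
  intro h0
  apply hne
  have e : (Set.univ : Set (SpecialLinearGroup (Fin n) ℝ)) = ⋃ l : SLZ n, {x | 1 * x * (l : SpecialLinearGroup (Fin n) ℝ)⁻¹ ∈ D} := by
    ext x
    simp only [Set.mem_univ, Set.mem_iUnion, true_iff]
    refine ⟨hD.r x, ?_⟩
    show 1 * x * (hD.r x : SpecialLinearGroup (Fin n) ℝ)⁻¹ ∈ D
    rw [one_mul]
    exact hD.rep_mem x
  rw [e, measure_iUnion_null_iff]
  intro l
  rw [IsSFD.measure_translate, h0]

end Pool.Agent.Helper96.SZ
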