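import Pool.Agent.Helper96.SZ.Defs

/-!
# Block SZ-COMP: completion of primitive vectors

PROOF. Strong induction on `∑ i, |w i|` (natAbs). If two entries `w i`, `w j`, `i ≠ j`, are nonzero, `|w j| ≤ |w i|`, then replacing `w i` by `w i - ε w j`, `ε = ±1` the sign of `w i w j`,
decreases the sum and keeps the vector primitive; the replacement is multiplication by a transvection `1 ± E_{ij}` (in `SL(m + 1, ℤ)`, `SpecialLinearGroup.transvection` or by hand
with `det_transvection_of_ne`), so a completion of the new vector gives one of the old one. If only one entry `w k` is nonzero, it is `±1`. If `k = 0` and `w 0 = 1` take `g = 1`. In general use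
two more transvections: from `± e_k` to `e_0`: if `k ≠ 0`, `e_0 + ...`: adding `w k` times the `k`-th coordinate to the `0`-th gives `(1, ..., ±1 at k)`, then subtract `± ` the `0`-th coordinate from the `k`-th; if `k = 0`
and `w 0 = -1`: first add the `0`-th coordinate to the coordinate `1` (here `m ≥ 1` is used) and continue as before with `k = 1`. (Alternative: `Submodule.smithNormalForm`.)
-/

set_option autoImplicit false

open Matrix MeasureTheory

namespace Pool.Agent.Helper96.SZ

private lemma tv56 {m : ℕ} {w : Fin (m + 1) → ℤ} {i j : Fin (m + 1)} (hij : i ≠ j) (c : ℤ)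
    (h : ∃ g : SpecialLinearGroup (Fin (m + 1)) ℤ, ∀ l, g.1 l 0 = Function.update w i (w i + c * w j) l) :
    ∃ g : SpecialLinearGroup (Fin (m + 1)) ℤ, ∀ l, g.1 l 0 = w l := by
  obtain ⟨g, hg⟩ := h
  refine ⟨⟨transvection i j (-c) * g.1, ?_⟩, fun l => ?_⟩
  · rw [det_mul, det_transvection_of_ne i j hij, one_mul]
    exact g.2
  · show (transvection i j (-c) * g.1) l 0 = w l
    by_cases hl : l = i
    · subst hl
      rw [transvection_mul_apply_same, hg, hg, Function.update_self, Function.update_of_ne hij.symm]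
      ring
    · rw [transvection_mul_apply_of_ne _ _ _ _ hl, hg, Function.update_of_ne hl]

private lemma one56 {m : ℕ} {w : Fin (m + 1) → ℤ} (h : w 0 = 1) :
    ∃ g : SpecialLinearGroup (Fin (m + 1)) ℤ, ∀ l, g.1 l 0 = w l := by
  refine ⟨⟨(1 : Matrix (Fin (m + 1)) (Fin (m + 1)) ℤ).updateCol 0 w, ?_⟩, fun l => ?_⟩
  · rw [← cramer_apply, cramer_one]
    exact h
  · show (1 : Matrix (Fin (m + 1)) (Fin (m + 1)) ℤ).updateCol 0 w l 0 = w l
    rw [updateCol_self]

private lemma prim56 {m : ℕ} {w : Fin m → ℤ} (hw : Prim w) {i j : Fin m} (hij : i ≠ j) (c : ℤ) :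
    Prim (Function.update w i (w i + c * w j)) := by
  intro d hd
  apply hw
  have hj : d ∣ w j := by
    have h := hd j
    rwa [Function.update_of_ne hij.symm] at h
  intro l
  by_cases hl : l = i
  · subst hl
    have h := hd l
    rw [Function.update_self] at h
    exact (dvd_add_left (hj.mul_left c)).1 h
  · have h := hd l
    rwa [Function.update_of_ne hl] at h

private lemma abs56 {a b : ℤ} (hb : b ≠ 0) (h : b.natAbs ≤ a.natAbs) :
    ∃ c : ℤ, (a + c * b).natAbs < a.natAbs := by
  rcases le_or_gt 0 a with ha | ha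
  · rcases lt_or_gt_of_ne hb with hb' | hb'
    · exact ⟨1, by omega⟩
    · exact ⟨-1, by omega⟩
  · rcases lt_or_gt_of_ne hb with hb' | hb'
    · exact ⟨-1, by omega⟩
    · exact ⟨1, by omega⟩

private lemma last56 {m : ℕ} (hm : 0 < m) {w : Fin (m + 1) → ℤ} (hw : Prim w) {k : Fin (m + 1)}
    (hk : ∀ i, i ≠ k → w i = 0) :
    ∃ g : SpecialLinearGroup (Fin (m + 1)) ℤ, ∀ l, g.1 l 0 = w l := by
  have hu : IsUnit (w k) := by
    apply hw
    intro i
    by_cases hi : i = k
    · rw [hi]
    · rw [hk i hi]
      exact dvd_zero _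
  have hsq : w k * w k = 1 := by
    rcases Int.isUnit_iff.1 hu with h | h <;> rw [h] <;> norm_num
  by_cases h0 : k = 0
  · subst h0
    have h1 : (⟨1, by omega⟩ : Fin (m + 1)) ≠ 0 := by
      intro h
      have := congrArg Fin.val h
      simp at this
    apply tv56 h1 (w 0)
    apply tv56 h1.symm (1 - w 0)
    apply one56
    rw [Function.update_self, Function.update_self, Function.update_of_ne h1.symm, hk _ h1, hsq]
    ring
  · apply tv56 (Ne.symm h0) (w k)
    apply one56
    rw [Function.update_self, hk 0 (Ne.symm h0), hsq, zero_add]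

theorem exists_compl {m : ℕ} (hm : 0 < m) (w : Fin (m + 1) → ℤ) (hw : Prim w) :
    ∃ g : SpecialLinearGroup (Fin (m + 1)) ℤ, ∀ i, g.1 i 0 = w i := by
  obtain ⟨N, hN⟩ : ∃ N : ℕ, ∑ i, (w i).natAbs = N := ⟨_, rfl⟩
  induction N using Nat.strong_induction_on generalizing w with
  | _ N ih =>
    by_cases hex : ∃ i j, i ≠ j ∧ w i ≠ 0 ∧ w j ≠ 0
    · obtain ⟨i, j, hij, hj0, hle⟩ : ∃ i j, i ≠ j ∧ w j ≠ 0 ∧ (w j).natAbs ≤ (w i).natAbs := by
        obtain ⟨i, j, hij, hi, hj⟩ := hex
        rcases le_total (w j).natAbs (w i).natAbs with h | h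
        · exact ⟨i, j, hij, hj, h⟩
        · exact ⟨j, i, hij.symm, hi, h⟩
      obtain ⟨c, hc⟩ := abs56 hj0 hle
      apply tv56 hij c
      refine ih (∑ l, (Function.update w i (w i + c * w j) l).natAbs) ?_ _ (prim56 hw hij c) rfl
      rw [← hN]
      apply Finset.sum_lt_sum
      · intro l _
        by_cases hl : l = i
        · subst hl
          rw [Function.update_self]
          exact hc.le
        · rw [Function.update_of_ne hl]
      · exact ⟨i, Finset.mem_univ i, by rw [Function.update_self]; exact hc⟩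
    · push Not at hex
      obtain ⟨k, hk⟩ : ∃ k, w k ≠ 0 := by
        by_contra hcon
        push Not at hcon
        have h2 := hw 2 (fun i => by rw [hcon i]; exact dvd_zero _)
        rw [Int.isUnit_iff] at h2
        omega
      exact last56 hm hw (k := k) (fun i hi => hex k i (Ne.symm hi) hk)

end Pool.Agent.Helper96.SZ
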