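import Mathlib

/-!
# Project SZ (MP_0f6f3f_an): `SL(n, ℤ)` is a lattice in `SL(n, ℝ)` (definitions)

A matrix `A` is represented by the function `cols A` of its columns. `PM m`: there is a measurable set `S` of finite volume in the space of real
`m × m` matrices such that every `A` with `0 < |det A| ≤ 1` can be moved into `S` by right multiplication with an element of `SL(m, ℤ)`.
-/

set_option autoImplicit false

open Matrix MeasureTheory

namespace Pool.Agent.Helper96.SZ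

/-- the columns of a matrix -/
def cols {m : ℕ} (A : Matrix (Fin m) (Fin m) ℝ) : Fin m → Fin m → ℝ := fun j i => A i j

/-- the matrix with given columns -/
def mat {m : ℕ} (C : Fin m → Fin m → ℝ) : Matrix (Fin m) (Fin m) ℝ := Matrix.of fun i j => C j i

theorem mat_cols {m : ℕ} (A : Matrix (Fin m) (Fin m) ℝ) : mat (cols A) = A := rfl

theorem cols_mat {m : ℕ} (C : Fin m → Fin m → ℝ) : cols (mat C) = C := rfl

/-- an integral matrix as a real matrix -/
def rl {m : ℕ} (g : SpecialLinearGroup (Fin m) ℤ) : Matrix (Fin m) (Fin m) ℝ := g.1.map (Int.castRingHom ℝ)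

/-- reduction modulo `SL(m, ℤ)` into a set of finite volume -/
def PM (m : ℕ) : Prop := ∃ S : Set (Fin m → Fin m → ℝ), MeasurableSet S ∧ volume S ≠ ⊤ ∧
  ∀ A : Matrix (Fin m) (Fin m) ℝ, 0 < |A.det| → |A.det| ≤ 1 → ∃ g : SpecialLinearGroup (Fin m) ℤ, cols (A * rl g) ∈ S

/-- primitive vectors -/
def Prim {m : ℕ} (w : Fin m → ℤ) : Prop := ∀ d : ℤ, (∀ i, d ∣ w i) → IsUnit d

/-- Measurable choice of matrices `K b` with `|det (K b)| = 1` and `K b b = e₀`. -/
structure GoodK {m : ℕ} (K : (Fin (m + 1) → ℝ) → Matrix (Fin (m + 1)) (Fin (m + 1)) ℝ) : Prop where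
  meas : ∀ i j, Measurable fun b => K b i j
  det : ∀ b, |(K b).det| = 1
  map : ∀ b, b ≠ 0 → K b *ᵥ b = Pi.single 0 1

/-- the set `S_{m+1}` -/
def nextS {m : ℕ} (K : (Fin (m + 1) → ℝ) → Matrix (Fin (m + 1)) (Fin (m + 1)) ℝ) (S : Set (Fin m → Fin m → ℝ)) :
    Set (Fin (m + 1) → Fin (m + 1) → ℝ) :=
  {C | (∀ i, |C 0 i| ≤ 2) ∧ (∀ j : Fin m, (K (C 0) *ᵥ C j.succ) 0 ∈ Set.Ico (0 : ℝ) 1) ∧
    (fun (j i : Fin m) => (K (C 0) *ᵥ C j.succ) i.succ) ∈ S}

end Pool.Agent.Helper96.SZ
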