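import Pool.Agent.Helper96.SZ.Defs

/-!
# Block SZ-HOU: the matrices `K b` (Householder reflections)

PROOF. `ρ = √(∑ i, b i ^ 2)`, `w = b - ρ e₀`, `H = 1 - (2 / (w ⬝ w)) w wᵀ` (`Matrix.vecMulVec w w`; `H = 1` if `w = 0`, as `2 / 0 = 0`). `H` is symmetric and `H * H = 1` (`(w wᵀ)(w wᵀ) = (w ⬝ w) w wᵀ`), so `det H ^ 2 = 1`.
`H b = ρ e₀`: clear if `w = 0`; otherwise `w ⬝ w = 2 ρ² - 2 ρ b 0 = 2 (w ⬝ b)`, so `H b = b - w = ρ e₀`. `K b = D H`, `D = diagonal (1/ρ, ρ, 1, ..., 1)` if `b ≠ 0` (here `m ≥ 1` is used: the second entry makes `det D = 1`), and `K b = 1` if `b = 0`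
(`Measurable.ite`, `measurableSet_singleton`). Measurability of the entries: sums, products, `Real.sqrt`, division.
-/

set_option autoImplicit false

open Matrix MeasureTheory

namespace Pool.Agent.Helper96.SZ

private noncomputable def rho {n : ℕ} (b : Fin n → ℝ) : ℝ := √(∑ i, b i ^ 2)

private noncomputable def ww {n : ℕ} (b : Fin (n + 1) → ℝ) : Fin (n + 1) → ℝ := b - Pi.single 0 (rho b)

private noncomputable def HH {n : ℕ} (b : Fin (n + 1) → ℝ) : Matrix (Fin (n + 1)) (Fin (n + 1)) ℝ :=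
  1 - (2 / (ww b ⬝ᵥ ww b)) • vecMulVec (ww b) (ww b)

private theorem rho_sq {n : ℕ} (b : Fin n → ℝ) : rho b ^ 2 = b ⬝ᵥ b := by
  rw [rho, Real.sq_sqrt (Finset.sum_nonneg fun i _ => sq_nonneg _), dotProduct]
  exact Finset.sum_congr rfl fun i _ => sq _

private theorem rho_ne {n : ℕ} {b : Fin n → ℝ} (hb : b ≠ 0) : rho b ≠ 0 := by
  intro h
  have h1 := rho_sq b
  rw [h, zero_pow two_ne_zero] at h1
  exact hb (dotProduct_self_eq_zero.1 h1.symm)

private theorem HH_sq {n : ℕ} (b : Fin (n + 1) → ℝ) : HH b * HH b = 1 := by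
  have h1 : vecMulVec (ww b) (ww b) * vecMulVec (ww b) (ww b) = (ww b ⬝ᵥ ww b) • vecMulVec (ww b) (ww b) := by
    ext i j
    simp only [Matrix.mul_apply, vecMulVec_apply, Matrix.smul_apply, smul_eq_mul, dotProduct, Finset.sum_mul]
    exact Finset.sum_congr rfl fun k _ => by ring
  have h2 : 2 / (ww b ⬝ᵥ ww b) * (2 / (ww b ⬝ᵥ ww b)) * (ww b ⬝ᵥ ww b) = 2 / (ww b ⬝ᵥ ww b) + 2 / (ww b ⬝ᵥ ww b) := by
    by_cases h : ww b ⬝ᵥ ww b = 0
    · simp [h]
    · field_simp
      norm_num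
  rw [HH, sub_mul, one_mul, mul_sub, mul_one, smul_mul_smul_comm, h1, smul_smul, h2, add_smul]
  abel

private theorem HH_det {n : ℕ} (b : Fin (n + 1) → ℝ) : |(HH b).det| = 1 := by
  have h := congrArg Matrix.det (HH_sq b)
  rw [Matrix.det_mul, Matrix.det_one, ← sq] at h
  rw [← abs_one, ← sq_eq_sq_iff_abs_eq_abs, h, one_pow]

private theorem HH_map {n : ℕ} (b : Fin (n + 1) → ℝ) : HH b *ᵥ b = Pi.single 0 (rho b) := by
  have h0 : ww b ⬝ᵥ b = rho b ^ 2 - rho b * b 0 := by
    rw [ww, sub_dotProduct, rho_sq, single_dotProduct]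
  have h1 : ww b ⬝ᵥ ww b = 2 * (ww b ⬝ᵥ b) := by
    have h2 : ww b ⬝ᵥ ww b = ww b ⬝ᵥ b - ww b 0 * rho b := by
      conv_lhs => rw [ww, dotProduct_sub, dotProduct_single]
      rfl
    rw [h2, h0]
    simp only [ww, Pi.sub_apply, Pi.single_eq_same]
    ring
  have h3 : HH b *ᵥ b = b - (2 / (ww b ⬝ᵥ ww b) * (ww b ⬝ᵥ b)) • ww b := by
    rw [HH, Matrix.sub_mulVec, Matrix.one_mulVec, Matrix.smul_mulVec, vecMulVec_mulVec]
    congr 1
    ext i
    simp only [Pi.smul_apply, smul_eq_mul, MulOpposite.smul_eq_mul_unop, MulOpposite.unop_op]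
    ring
  by_cases h : ww b ⬝ᵥ ww b = 0
  · have h4 : ww b = 0 := dotProduct_self_eq_zero.1 h
    rw [h3, h4, smul_zero, sub_zero]
    exact sub_eq_zero.1 h4
  · have h4 : 2 / (ww b ⬝ᵥ ww b) * (ww b ⬝ᵥ b) = 1 := by
      rw [h1] at h ⊢
      have h5 : ww b ⬝ᵥ b ≠ 0 := fun h6 => h (by rw [h6, mul_zero])
      field_simp
    rw [h3, h4, one_smul, ww, sub_sub_cancel]

private noncomputable def dd {n : ℕ} (b : Fin (n + 2) → ℝ) : Fin (n + 2) → ℝ :=
  Fin.cons (1 / rho b) (Fin.cons (rho b) fun _ => 1)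

private theorem rho_meas {n : ℕ} : Measurable fun b : Fin n → ℝ => rho b := by
  unfold rho
  fun_prop

private theorem ww_meas {n : ℕ} (i : Fin (n + 1)) : Measurable fun b : Fin (n + 1) → ℝ => ww b i := by
  unfold ww
  simp only [Pi.sub_apply]
  refine (measurable_pi_apply i).sub ?_
  by_cases h : i = 0
  · subst h
    simp only [Pi.single_eq_same]
    exact rho_meas
  · simp only [Pi.single_eq_of_ne h]
    exact measurable_const

private theorem HH_meas {n : ℕ} (i j : Fin (n + 1)) : Measurable fun b : Fin (n + 1) → ℝ => HH b i j := by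
  unfold HH
  simp only [Matrix.sub_apply, Matrix.smul_apply, vecMulVec_apply, smul_eq_mul, dotProduct]
  refine measurable_const.sub (Measurable.mul (measurable_const.div ?_) ((ww_meas i).mul (ww_meas j)))
  exact Finset.measurable_sum _ fun k _ => (ww_meas k).mul (ww_meas k)

private theorem dd_meas {n : ℕ} (i : Fin (n + 2)) : Measurable fun b : Fin (n + 2) → ℝ => dd b i := by
  refine Fin.cases ?_ (fun i => ?_) i
  · simp only [dd, Fin.cons_zero]
    exact measurable_const.div rho_meas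
  · refine Fin.cases ?_ (fun i => ?_) i
    · simp only [dd, Fin.cons_succ, Fin.cons_zero]
      exact rho_meas
    · simp only [dd, Fin.cons_succ]
      exact measurable_const

theorem exists_K {m : ℕ} (hm : 0 < m) : ∃ K : (Fin (m + 1) → ℝ) → Matrix (Fin (m + 1)) (Fin (m + 1)) ℝ, GoodK K := by
  obtain ⟨n, rfl⟩ : ∃ n, m = n + 1 := ⟨m - 1, by omega⟩
  classical
  refine ⟨fun b => if b = 0 then 1 else diagonal (dd b) * HH b, ?_, ?_, ?_⟩
  · intro i j
    have h : ∀ b : Fin (n + 1 + 1) → ℝ, (if b = 0 then (1 : Matrix (Fin (n + 1 + 1)) (Fin (n + 1 + 1)) ℝ) else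
        diagonal (dd b) * HH b) i j = if b = 0 then (1 : Matrix (Fin (n + 1 + 1)) (Fin (n + 1 + 1)) ℝ) i j else
        dd b i * HH b i j := by
      intro b
      split_ifs
      · rfl
      · rw [diagonal_mul]
    simp only [h]
    exact Measurable.ite (measurableSet_singleton _) measurable_const ((dd_meas i).mul (HH_meas i j))
  · intro b
    show |(if b = 0 then (1 : Matrix (Fin (n + 1 + 1)) (Fin (n + 1 + 1)) ℝ) else diagonal (dd b) * HH b).det| = 1
    split_ifs with h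
    · rw [Matrix.det_one, abs_one]
    · rw [Matrix.det_mul, Matrix.det_diagonal, abs_mul, HH_det, mul_one]
      have h1 : ∏ i, dd b i = 1 := by
        rw [Fin.prod_univ_succ, Fin.prod_univ_succ]
        simp only [dd, Fin.cons_zero, Fin.cons_succ, Finset.prod_const_one, mul_one]
        exact one_div_mul_cancel (rho_ne h)
      rw [h1, abs_one]
  · intro b hb
    show (if b = 0 then (1 : Matrix (Fin (n + 1 + 1)) (Fin (n + 1 + 1)) ℝ) else diagonal (dd b) * HH b) *ᵥ b = _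
    rw [if_neg hb, ← Matrix.mulVec_mulVec, HH_map]
    ext i
    rw [mulVec_diagonal]
    by_cases hi : i = 0
    · subst hi
      rw [Pi.single_eq_same, Pi.single_eq_same]
      simp only [dd, Fin.cons_zero]
      exact one_div_mul_cancel (rho_ne hb)
    · rw [Pi.single_eq_of_ne hi, Pi.single_eq_of_ne hi, mul_zero]

end Pool.Agent.Helper96.SZ
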