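import Pool.Agent.Helper96.SZ.Defs

/-!
# Block SZ-MIN: short primitive vectors (Minkowski)

PROOF. The columns of `A` form a basis `b` of `Fin m → ℝ` (`0 < |det A|`); the fundamental domain of the lattice `span ℤ (range b)` has volume `|det A| ≤ 1`
(`ZSpan.volume_fundamentalDomain`, `ZSpan.isAddFundamentalDomain`). The cube `{x | ∀ i, |x i| ≤ 2}` (or `< 2`) is convex, symmetric and of volume `4 ^ m > 2 ^ m ≥ |det A| 2 ^ m`
(`m > 0`), so by Minkowski (`exists_ne_zero_mem_lattice_of_measure_mul_two_pow_lt_measure`) it contains a nonzero vector of the lattice, `A v`, `v ∈ ℤ^m`,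
`v ≠ 0`. Let `d > 0` be the gcd of the entries (`Finset.gcd`), `v = d w`, `w` primitive; `|A w| = |A v| / d ≤ 2`.
-/

set_option autoImplicit false

open Matrix MeasureTheory

namespace Pool.Agent.Helper96.SZ

theorem exists_short {m : ℕ} (hm : 0 < m) (A : Matrix (Fin m) (Fin m) ℝ) (h0 : 0 < |A.det|) (h1 : |A.det| ≤ 1) :
    ∃ w : Fin m → ℤ, Prim w ∧ ∀ i, |(A *ᵥ fun j => (w j : ℝ)) i| ≤ 2 := by
  classical
  have : Nonempty (Fin m) := ⟨⟨0, hm⟩⟩
  have hdet : Aᵀ.det ≠ 0 := by
    rw [det_transpose]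
    exact abs_pos.1 h0
  have hli : LinearIndependent ℝ Aᵀ.row := by
    rw [linearIndependent_rows_iff_isUnit, isUnit_iff_isUnit_det]
    exact isUnit_iff_ne_zero.2 hdet
  have hcard : Fintype.card (Fin m) = Module.finrank ℝ (Fin m → ℝ) := by
    rw [Module.finrank_fintype_fun_eq_card]
  let b : Module.Basis (Fin m) ℝ (Fin m → ℝ) := basisOfLinearIndependentOfCardEqFinrank hli hcard
  have hb : (b : Fin m → Fin m → ℝ) = Aᵀ.row := coe_basisOfLinearIndependentOfCardEqFinrank hli hcard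
  have hvol : volume (ZSpan.fundamentalDomain b) = ENNReal.ofReal |A.det| := by
    rw [ZSpan.volume_fundamentalDomain, hb]
    have h2 : (Matrix.of Aᵀ.row : Matrix (Fin m) (Fin m) ℝ) = Aᵀ := rfl
    rw [h2, det_transpose]
  have hcube : volume (Set.Icc (fun _ => -2 : Fin m → ℝ) (fun _ => 2)) = 4 ^ m := by
    rw [Real.volume_Icc_pi]
    have h3 : ∀ i : Fin m, ENNReal.ofReal ((2 : ℝ) - -2) = 4 := fun i => by
      norm_num
    rw [Finset.prod_congr rfl fun i _ => h3 i, Finset.prod_const, Finset.card_univ, Fintype.card_fin]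
  have hlt : volume (ZSpan.fundamentalDomain b) * 2 ^ (Module.finrank ℝ (Fin m → ℝ)) <
      volume (Set.Icc (fun _ => -2 : Fin m → ℝ) (fun _ => 2)) := by
    rw [hvol, hcube, ← hcard, Fintype.card_fin]
    calc ENNReal.ofReal |A.det| * 2 ^ m ≤ 1 * 2 ^ m := by
          gcongr
          rw [← ENNReal.ofReal_one]
          exact ENNReal.ofReal_le_ofReal h1
      _ = 2 ^ m := one_mul _
      _ < 4 ^ m := ENNReal.pow_lt_pow_left hm.ne' (by norm_num)
  have : Countable (Submodule.span ℤ (Set.range b)).toAddSubgroup :=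
    inferInstanceAs (Countable (Submodule.span ℤ (Set.range b)))
  obtain ⟨x, hx0, hx⟩ := exists_ne_zero_mem_lattice_of_measure_mul_two_pow_lt_measure
    (ZSpan.isAddFundamentalDomain' b volume)
    (fun x hx => by
      rw [Set.mem_Icc, Pi.le_def, Pi.le_def] at hx ⊢
      exact ⟨fun i => by have := hx.2 i; simp only [Pi.neg_apply]; linarith,
        fun i => by have := hx.1 i; simp only [Pi.neg_apply]; linarith⟩)
    (convex_Icc _ _) hlt
  obtain ⟨v, hv⟩ := (Submodule.mem_span_range_iff_exists_fun ℤ).1 x.2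
  obtain ⟨w, hw, hw1⟩ := Finset.extract_gcd v (Finset.univ_nonempty (α := Fin m))
  have hAv : ∀ i, (A *ᵥ fun j => (v j : ℝ)) i = (x : Fin m → ℝ) i := by
    intro i
    rw [← hv, Finset.sum_apply]
    unfold mulVec dotProduct
    refine Finset.sum_congr rfl fun j _ => ?_
    rw [Pi.smul_apply, zsmul_eq_mul, hb, mul_comm]
    rfl
  have hv0 : Finset.univ.gcd v ≠ 0 := by
    intro h2
    rw [Finset.gcd_eq_zero_iff] at h2
    apply hx0
    apply Subtype.ext
    rw [← hv]
    exact Finset.sum_eq_zero fun j hj => by rw [h2 j hj, zero_smul]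
  refine ⟨w, fun d hd => ?_, fun i => ?_⟩
  · have h2 : d ∣ Finset.univ.gcd w := Finset.dvd_gcd fun i _ => hd i
    rw [hw1] at h2
    exact isUnit_of_dvd_one h2
  · have h2 : ((Finset.univ.gcd v : ℤ) : ℝ) * (A *ᵥ fun j => (w j : ℝ)) i = (x : Fin m → ℝ) i := by
      rw [← hAv i]
      unfold mulVec dotProduct
      rw [Finset.mul_sum]
      refine Finset.sum_congr rfl fun j hj => ?_
      have h3 : (v j : ℝ) = ((Finset.univ.gcd v : ℤ) : ℝ) * (w j : ℝ) := by
        exact_mod_cast hw j hj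
      change _ = A i j * ((v j : ℤ) : ℝ)
      rw [h3]
      ring
    have h4 : |(x : Fin m → ℝ) i| ≤ 2 := abs_le.2 ⟨hx.1 i, hx.2 i⟩
    rw [← h2, abs_mul] at h4
    have h5 : (1 : ℝ) ≤ |((Finset.univ.gcd v : ℤ) : ℝ)| := by
      have h6 : (1 : ℤ) ≤ |Finset.univ.gcd v| := Int.one_le_abs hv0
      exact_mod_cast h6
    nlinarith [abs_nonneg ((A *ᵥ fun j => (w j : ℝ)) i)]

end Pool.Agent.Helper96.SZ
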