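import Pool.Agent.Helper96.SZ.Defs

/-!
# Block SZ-MUL: left and right multiplication by matrices of determinant `±1` preserve the volume of the space of matrices

PROOF. Left multiplication acts on every column by `h`, `|det h| = 1`: `measurePreserving_pi` (or `volume_preserving_pi`) applied to `n` copies of `b ↦ h *ᵥ b` (`Real.map_matrix_volume_pi_eq_smul_volume_pi`). Right multiplication
`R_h : C ↦ (j ↦ ∑ k, h k j • C k)` is a linear map of `Fin n → Fin n → ℝ`, and `R_h = τ ∘ L_{hᵀ} ∘ τ` where `τ` is the transposition (a linear equivalence, `τ C j i = C i j`). So `det R_h = det L_{hᵀ}` (`LinearMap.det_conj`), and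
`|det L_{hᵀ}| = 1` because `L_{hᵀ}` preserves the volume (`Measure.addHaar_preimage_linearMap` on the unit cube / `Measure.map_linearMap_addHaar_eq_smul_addHaar`; `volume` on `Fin n → Fin n → ℝ` is an additive Haar measure by instance); so `R_h`
preserves the volume. (Alternative: `measurePreserving` property of the transposition.)
-/

set_option autoImplicit false

open Matrix MeasureTheory

namespace Pool.Agent.Helper96.SZ

theorem measurePreserving_mulLeft {n : ℕ} (h : Matrix (Fin n) (Fin n) ℝ) (hh : |h.det| = 1) :
    MeasurePreserving (fun C : Fin n → Fin n → ℝ => cols (h * mat C)) volume volume := by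
  have h0 : h.det ≠ 0 := by
    intro h0
    rw [h0, abs_zero] at hh
    exact zero_ne_one hh
  have h1 : MeasurePreserving (fun b : Fin n → ℝ => Matrix.toLin' h b) volume volume := by
    refine ⟨?_, ?_⟩
    · exact (LinearMap.continuous_of_finiteDimensional (Matrix.toLin' h)).measurable
    · have h2 := Real.map_matrix_volume_pi_eq_smul_volume_pi h0
      rw [abs_inv, hh, inv_one, ENNReal.ofReal_one, one_smul] at h2
      exact h2
  have h3 := volume_preserving_pi (fun _ : Fin n => h1)
  exact h3

private def tau96 (n : ℕ) : (Fin n → Fin n → ℝ) →ₗ[ℝ] (Fin n → Fin n → ℝ) where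
  toFun C := fun j i => C i j
  map_add' _ _ := rfl
  map_smul' _ _ := rfl

private theorem measurePreserving_tau96 (n : ℕ) :
    MeasurePreserving (fun C : Fin n → Fin n → ℝ => tau96 n C) volume volume := by
  have h1 : (tau96 n).comp (tau96 n) = LinearMap.id := rfl
  have h2 : LinearMap.det (tau96 n) * LinearMap.det (tau96 n) = 1 := by
    rw [← LinearMap.det_comp, h1, LinearMap.det_id]
  have h3 : |LinearMap.det (tau96 n)| = 1 := by
    have h4 : |LinearMap.det (tau96 n)| * |LinearMap.det (tau96 n)| = 1 := by
      rw [← abs_mul, h2, abs_one]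
    nlinarith [abs_nonneg (LinearMap.det (tau96 n))]
  have h0 : LinearMap.det (tau96 n) ≠ 0 := by
    intro h0
    rw [h0, abs_zero] at h3
    exact zero_ne_one h3
  refine ⟨(LinearMap.continuous_of_finiteDimensional (tau96 n)).measurable, ?_⟩
  have h5 := Measure.map_linearMap_addHaar_eq_smul_addHaar
    (volume : Measure (Fin n → Fin n → ℝ)) h0
  rw [abs_inv, h3, inv_one, ENNReal.ofReal_one, one_smul] at h5
  exact h5

theorem measurePreserving_mulRight {n : ℕ} (h : Matrix (Fin n) (Fin n) ℝ) (hh : |h.det| = 1) :
    MeasurePreserving (fun C : Fin n → Fin n → ℝ => cols (mat C * h)) volume volume := by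
  have h1 := measurePreserving_mulLeft hᵀ (by rw [Matrix.det_transpose, hh])
  have h2 := ((measurePreserving_tau96 n).comp h1).comp (measurePreserving_tau96 n)
  have h3 : (fun C : Fin n → Fin n → ℝ => cols (mat C * h)) =
      ((fun C => tau96 n C) ∘ (fun C : Fin n → Fin n → ℝ => cols (hᵀ * mat C))) ∘
        (fun C => tau96 n C) := by
    funext C j i
    change (mat C * h) i j = (hᵀ * mat (tau96 n C)) j i
    rw [Matrix.mul_apply, Matrix.mul_apply]
    refine Finset.sum_congr rfl fun k _ => ?_
    exact mul_comm _ _
  rw [h3]
  exact h2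

end Pool.Agent.Helper96.SZ
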