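import Pool.Agent.Helper96.SZ.Defs

/-!
# Block SZ-VOL: the volume of `S_{m+1}`

PROOF. `Fin (m+1) → E ≃ E × (Fin m → E)`, `E = Fin (m+1) → ℝ` (`volume_preserving_piFinSuccAbove (fun _ => E) 0`), is measure preserving. For fixed `b = C 0` the map `C' ↦ (j ↦ K b *ᵥ C' j)` of `Fin m → E` preserves the volume
(`volume_preserving_pi` or `MeasurePreserving.pi` of `m` copies of the linear map `K b`, `|det| = 1`: `Real.map_matrix_volume_pi_eq_smul_volume_pi` or `addHaar_preimage_linearMap`). The image of the section of `nextS K S` is contained in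
`{C' | (∀ j, C' j 0 ∈ Ico 0 1) ∧ (j i ↦ C' j i.succ) ∈ S}`, which has volume `1 · volume S`: `E ≃ ℝ × (Fin m → ℝ)` and `(Fin m → ℝ × F) ≃ (Fin m → ℝ) × (Fin m → F)` (`volume_preserving_arrowProdEquivProdArrow`). So
`volume (nextS K S) ≤ ∫_{b : ∀ i, |b i| ≤ 2} volume S db = 4 ^ (m+1) volume S` (`Measure.prod_apply`, `lintegral_indicator`; only `≤` is needed; `b = 0` is allowed: `|det (K 0)| = 1`). Measurability of `nextS K S`: the entries of `K (C 0) *ᵥ C j.succ` are finite sums of products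
of measurable functions of `C`.
-/

set_option autoImplicit false

open Matrix MeasureTheory

namespace Pool.Agent.Helper96.SZ

/-- the set `S_{m+1}` after splitting off the first column -/
private def RS {m : ℕ} (K : (Fin (m + 1) → ℝ) → Matrix (Fin (m + 1)) (Fin (m + 1)) ℝ)
    (S : Set (Fin m → Fin m → ℝ)) : Set ((Fin (m + 1) → ℝ) × (Fin m → Fin (m + 1) → ℝ)) :=
  {p | (∀ i, |p.1 i| ≤ 2) ∧ (∀ j : Fin m, (K p.1 *ᵥ p.2 j) 0 ∈ Set.Ico (0 : ℝ) 1) ∧
    (fun (j i : Fin m) => (K p.1 *ᵥ p.2 j) i.succ) ∈ S}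

private theorem measurableSet_RS {m : ℕ}
    {K : (Fin (m + 1) → ℝ) → Matrix (Fin (m + 1)) (Fin (m + 1)) ℝ} (hK : GoodK K)
    {S : Set (Fin m → Fin m → ℝ)} (hS : MeasurableSet S) : MeasurableSet (RS K S) := by
  have h1 : ∀ (j : Fin m) (i : Fin (m + 1)),
      Measurable fun p : (Fin (m + 1) → ℝ) × (Fin m → Fin (m + 1) → ℝ) => (K p.1 *ᵥ p.2 j) i := by
    intro j i
    have h2 : (fun p : (Fin (m + 1) → ℝ) × (Fin m → Fin (m + 1) → ℝ) => (K p.1 *ᵥ p.2 j) i) =
        fun p => ∑ k, K p.1 i k * p.2 j k := by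
      funext p
      rfl
    rw [h2]
    refine Finset.measurable_sum _ fun k _ => ?_
    refine ((hK.meas i k).comp measurable_fst).mul ?_
    exact (measurable_pi_apply k).comp ((measurable_pi_apply j).comp measurable_snd)
  have h3 : RS K S = (⋂ i, {p | |p.1 i| ≤ 2}) ∩
      ((⋂ j : Fin m, {p | (K p.1 *ᵥ p.2 j) 0 ∈ Set.Ico (0 : ℝ) 1}) ∩
        {p | (fun (j i : Fin m) => (K p.1 *ᵥ p.2 j) i.succ) ∈ S}) := by
    ext p
    simp [RS]
  rw [h3]
  refine (MeasurableSet.iInter fun i => ?_).inter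
    ((MeasurableSet.iInter fun j => ?_).inter ?_)
  · exact measurableSet_le
      ((continuous_abs.measurable).comp ((measurable_pi_apply i).comp measurable_fst))
      measurable_const
  · exact (h1 j 0) measurableSet_Ico
  · have h4 : Measurable fun p : (Fin (m + 1) → ℝ) × (Fin m → Fin (m + 1) → ℝ) =>
        fun (j i : Fin m) => (K p.1 *ᵥ p.2 j) i.succ :=
      measurable_pi_iff.2 fun j => measurable_pi_iff.2 fun i => h1 j i.succ
    exact h4 hS

private theorem nextS_eq {m : ℕ}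
    (K : (Fin (m + 1) → ℝ) → Matrix (Fin (m + 1)) (Fin (m + 1)) ℝ) (S : Set (Fin m → Fin m → ℝ)) :
    nextS K S = MeasurableEquiv.piFinSuccAbove (fun _ : Fin (m + 1) => Fin (m + 1) → ℝ) 0 ⁻¹'
      RS K S := rfl

/-- the section after the linear map -/
private def TS {m : ℕ} (S : Set (Fin m → Fin m → ℝ)) : Set (Fin m → Fin (m + 1) → ℝ) :=
  {C | (∀ j : Fin m, C j 0 ∈ Set.Ico (0 : ℝ) 1) ∧ (fun (j i : Fin m) => C j i.succ) ∈ S}

private theorem volume_TS {m : ℕ} {S : Set (Fin m → Fin m → ℝ)} (hS : MeasurableSet S) :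
    MeasurableSet (TS S) ∧ volume (TS S) = volume S := by
  have h1 : MeasurePreserving
      (fun (C : Fin m → Fin (m + 1) → ℝ) (j : Fin m) =>
        MeasurableEquiv.piFinSuccAbove (fun _ : Fin (m + 1) => ℝ) 0 (C j)) :=
    volume_preserving_pi (α' := fun _ : Fin m => Fin (m + 1) → ℝ)
      (β' := fun _ : Fin m => ℝ × (Fin m → ℝ))
      (f := fun _ => MeasurableEquiv.piFinSuccAbove (fun _ : Fin (m + 1) => ℝ) 0)
      fun _ => volume_preserving_piFinSuccAbove (fun _ : Fin (m + 1) => ℝ) 0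
  have h2 := (volume_measurePreserving_arrowProdEquivProdArrow ℝ (Fin m → ℝ) (Fin m)).comp h1
  have h3 : TS S = ((MeasurableEquiv.arrowProdEquivProdArrow ℝ (Fin m → ℝ) (Fin m)) ∘
      (fun (C : Fin m → Fin (m + 1) → ℝ) (j : Fin m) =>
        MeasurableEquiv.piFinSuccAbove (fun _ : Fin (m + 1) => ℝ) 0 (C j))) ⁻¹'
      ((Set.univ.pi fun _ => Set.Ico (0 : ℝ) 1) ×ˢ S) := by
    ext C
    rw [Set.mem_preimage, Set.mem_prod, Set.mem_univ_pi]
    rfl
  have h4 : MeasurableSet ((Set.univ.pi fun _ : Fin m => Set.Ico (0 : ℝ) 1) ×ˢ S) :=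
    (MeasurableSet.univ_pi fun _ => measurableSet_Ico).prod hS
  refine ⟨?_, ?_⟩
  · rw [h3]
    exact h2.measurable h4
  · rw [h3, h2.measure_preimage h4.nullMeasurableSet, Measure.volume_eq_prod, Measure.prod_prod,
      volume_pi, Measure.pi_pi]
    simp

private theorem preserving_K {m : ℕ}
    {K : (Fin (m + 1) → ℝ) → Matrix (Fin (m + 1)) (Fin (m + 1)) ℝ} (hK : GoodK K)
    (b : Fin (m + 1) → ℝ) :
    MeasurePreserving fun (C : Fin m → Fin (m + 1) → ℝ) (j : Fin m) => K b *ᵥ C j := by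
  have hdet : (K b).det ≠ 0 := by
    intro h0
    have := hK.det b
    rw [h0, abs_zero] at this
    exact zero_ne_one this
  have h1 : MeasurePreserving (fun x : Fin (m + 1) → ℝ => K b *ᵥ x) := by
    refine ⟨?_, ?_⟩
    · exact (LinearMap.continuous_of_finiteDimensional (toLin' (K b))).measurable
    · have h2 := Real.map_matrix_volume_pi_eq_smul_volume_pi hdet
      have h3 : |((K b).det)⁻¹| = 1 := by rw [abs_inv, hK.det b, inv_one]
      rw [h3, ENNReal.ofReal_one, one_smul] at h2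
      exact h2
  exact volume_preserving_pi (α' := fun _ : Fin m => Fin (m + 1) → ℝ)
    (β' := fun _ : Fin m => Fin (m + 1) → ℝ) fun _ => h1

theorem measurableSet_nextS {m : ℕ} {K : (Fin (m + 1) → ℝ) → Matrix (Fin (m + 1)) (Fin (m + 1)) ℝ} (hK : GoodK K)
    {S : Set (Fin m → Fin m → ℝ)} (hS : MeasurableSet S) : MeasurableSet (nextS K S) := by
  rw [nextS_eq]
  exact (MeasurableEquiv.piFinSuccAbove (fun _ : Fin (m + 1) => Fin (m + 1) → ℝ) 0).measurable
    (measurableSet_RS hK hS)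

theorem volume_nextS {m : ℕ} {K : (Fin (m + 1) → ℝ) → Matrix (Fin (m + 1)) (Fin (m + 1)) ℝ} (hK : GoodK K)
    {S : Set (Fin m → Fin m → ℝ)} (hS : MeasurableSet S) (hfin : volume S ≠ ⊤) : volume (nextS K S) ≠ ⊤ := by
  have hR := measurableSet_RS hK hS
  obtain ⟨hT, hTv⟩ := volume_TS hS
  rw [nextS_eq, (volume_preserving_piFinSuccAbove (fun _ : Fin (m + 1) => Fin (m + 1) → ℝ)
    0).measure_preimage hR.nullMeasurableSet]
  rw [Measure.volume_eq_prod]
  change (volume.prod volume : Measure ((Fin (m + 1) → ℝ) × (Fin m → Fin (m + 1) → ℝ)))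
    (RS K S) ≠ ⊤
  rw [Measure.prod_apply hR]
  set Bx : Set (Fin (m + 1) → ℝ) := Set.Icc (fun _ => -2) (fun _ => 2) with hBx
  have hBm : MeasurableSet Bx := measurableSet_Icc
  have h1 : ∀ b : Fin (m + 1) → ℝ, volume (Prod.mk b ⁻¹' RS K S) ≤
      Bx.indicator (fun _ => volume S) b := by
    intro b
    by_cases hb : b ∈ Bx
    · rw [Set.indicator_of_mem hb]
      refine le_trans (measure_mono (t := (fun (C : Fin m → Fin (m + 1) → ℝ) (j : Fin m) =>
        K b *ᵥ C j) ⁻¹' TS S) ?_) ?_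
      · intro C hC
        exact ⟨hC.2.1, hC.2.2⟩
      · rw [(preserving_K hK b).measure_preimage hT.nullMeasurableSet, hTv]
    · rw [Set.indicator_of_notMem hb]
      have h2 : Prod.mk b ⁻¹' RS K S = ∅ := by
        rw [Set.eq_empty_iff_forall_notMem]
        intro C hC
        apply hb
        rw [hBx, Set.mem_Icc]
        exact ⟨fun i => (abs_le.1 (hC.1 i)).1, fun i => (abs_le.1 (hC.1 i)).2⟩
      rw [h2, measure_empty]
  have h3 : ∫⁻ b, volume (Prod.mk b ⁻¹' RS K S) ≤ volume S * volume Bx := by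
    refine (lintegral_mono h1).trans ?_
    rw [lintegral_indicator hBm, setLIntegral_const]
  refine ne_top_of_le_ne_top ?_ h3
  exact ENNReal.mul_ne_top hfin (isCompact_Icc.measure_lt_top).ne

end Pool.Agent.Helper96.SZ
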