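import Pool.Agent.Helper96.SZ.Min
import Pool.Agent.Helper96.SZ.Comp
import Pool.Agent.Helper96.SZ.Hou
import Pool.Agent.Helper96.SZ.Vol

/-!
# Block SZ-STEP: the induction

PROOF. `PM 1`: `S = {C | |C 0 0| ≤ 1}`, `g = 1`. `PM m → PM (m + 1)` (`m > 0`): `K` from `exists_K`, `S` from `PM m`, `S' = nextS K S`. Let `0 < |det A| ≤ 1`. `w` from `exists_short`, `g₁` from `exists_compl`: the first column of `A g₁` is `b = A w`, `|b i| ≤ 2`,
`b ≠ 0`. `K b A g₁ = fromBlocks-like [[1, x], [0, A₂]]` (first column `K b b = e₀`), `|det A₂| = |det A|` (`det_succ_column_zero` or `Matrix.det_eq..`: all other entries of the first column are zero). `δ ∈ SL(m, ℤ)` with `cols (A₂ δ) ∈ S`, `g₂ = [[1, 0], [0, δ]]`,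
`g₃ = [[1, y], [0, 1]]`, `y j = - ⌊(x δ) j⌋`. Then `K b A g₁ g₂ g₃ = [[1, y + x δ], [0, A₂ δ]]` and the first column of `A g₁ g₂ g₃` is still `b`. (It is enough to have one lemma: for `δ ∈ SL(m, ℤ)`, `y ∈ ℤ^m` the matrix `[[1, y], [0, δ]]` is in `SL(m+1, ℤ)`, with its
action on the columns: column `0` is unchanged, column `j.succ` of `M * g` is `y j • (column 0 of M) + ∑ k, δ k j • (column k.succ of M)`; apply it directly with `y j = -⌊..⌋`.)
-/

set_option autoImplicit false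

open Matrix MeasureTheory

namespace Pool.Agent.Helper96.SZ

private theorem rl_one6 {m : ℕ} : rl (1 : SpecialLinearGroup (Fin m) ℤ) = 1 := by
  change (1 : Matrix (Fin m) (Fin m) ℤ).map (Int.castRingHom ℝ) = 1
  exact Matrix.map_one _ (map_zero _) (map_one _)

private theorem rl_mul6 {m : ℕ} (g h : SpecialLinearGroup (Fin m) ℤ) : rl (g * h) = rl g * rl h := by
  change (g.1 * h.1).map (Int.castRingHom ℝ) = _
  exact Matrix.map_mul

private theorem det_rl6 {m : ℕ} (g : SpecialLinearGroup (Fin m) ℤ) : (rl g).det = 1 := by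
  unfold rl
  have h := RingHom.map_det (Int.castRingHom ℝ) g.1
  rw [g.2, map_one] at h
  exact h.symm

private theorem rl_apply6 {m : ℕ} (g : SpecialLinearGroup (Fin m) ℤ) (i j : Fin m) :
    rl g i j = ((g.1 i j : ℤ) : ℝ) := rfl

private theorem det_col6 {R : Type*} [CommRing R] {m : ℕ} (M : Matrix (Fin (m + 1)) (Fin (m + 1)) R)
    (h0 : M 0 0 = 1) (h : ∀ i : Fin m, M i.succ 0 = 0) :
    M.det = (M.submatrix Fin.succ Fin.succ).det := by
  rw [det_succ_column_zero, Fin.sum_univ_succ]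
  have h1 : ∑ i : Fin m, (-1) ^ ((i.succ : Fin (m + 1)) : ℕ) * M i.succ 0 *
      (M.submatrix i.succ.succAbove Fin.succ).det = 0 :=
    Finset.sum_eq_zero fun i _ => by rw [h i]; ring
  rw [h1, h0, Fin.succAbove_zero, add_zero]
  simp

private def blk6 {m : ℕ} (y : Fin m → ℤ) (δ : Matrix (Fin m) (Fin m) ℤ) :
    Matrix (Fin (m + 1)) (Fin (m + 1)) ℤ :=
  Matrix.of (Fin.cons (Fin.cons 1 y) fun i => Fin.cons 0 (δ i))

private theorem blk6_det {m : ℕ} (y : Fin m → ℤ) (δ : Matrix (Fin m) (Fin m) ℤ) :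
    (blk6 y δ).det = δ.det := by
  rw [det_col6 (blk6 y δ) rfl (fun i => rfl)]
  rfl

/-- The matrix `[[1, y], [0, δ]]`. -/
private def G6 {m : ℕ} (y : Fin m → ℤ) (δ : SpecialLinearGroup (Fin m) ℤ) :
    SpecialLinearGroup (Fin (m + 1)) ℤ :=
  ⟨blk6 y δ.1, by rw [blk6_det]; exact δ.2⟩

private theorem mul_G6_zero {m : ℕ} (y : Fin m → ℤ) (δ : SpecialLinearGroup (Fin m) ℤ)
    (M : Matrix (Fin (m + 1)) (Fin (m + 1)) ℝ) (i : Fin (m + 1)) :
    (M * rl (G6 y δ)) i 0 = M i 0 := by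
  rw [Matrix.mul_apply, Fin.sum_univ_succ]
  have h0 : rl (G6 y δ) 0 0 = 1 := by
    rw [rl_apply6]
    change (((1 : ℤ)) : ℝ) = 1
    norm_num
  have h1 : ∀ k : Fin m, rl (G6 y δ) k.succ 0 = 0 := fun k => by
    rw [rl_apply6]
    change (((0 : ℤ)) : ℝ) = 0
    norm_num
  rw [h0, Finset.sum_eq_zero fun k _ => by rw [h1 k, mul_zero], mul_one, add_zero]

private theorem mul_G6_succ {m : ℕ} (y : Fin m → ℤ) (δ : SpecialLinearGroup (Fin m) ℤ)
    (M : Matrix (Fin (m + 1)) (Fin (m + 1)) ℝ) (i : Fin (m + 1)) (j : Fin m) :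
    (M * rl (G6 y δ)) i j.succ = M i 0 * (y j : ℝ) + ∑ k : Fin m, M i k.succ * rl δ k j := by
  rw [Matrix.mul_apply, Fin.sum_univ_succ]
  rfl

theorem pm_one : PM 1 := by
  refine ⟨Set.Icc (fun _ _ => -1) (fun _ _ => 1), measurableSet_Icc, isCompact_Icc.measure_ne_top,
    fun A _ h1 => ⟨1, ?_⟩⟩
  rw [rl_one6, mul_one]
  rw [Matrix.det_fin_one] at h1
  have h2 := abs_le.1 h1
  refine ⟨fun j i => ?_, fun j i => ?_⟩
  · rw [Subsingleton.elim j 0, Subsingleton.elim i 0]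
    exact h2.1
  · rw [Subsingleton.elim j 0, Subsingleton.elim i 0]
    exact h2.2

theorem pm_succ {m : ℕ} (hm : 0 < m) (h : PM m) : PM (m + 1) := by
  obtain ⟨K, hK⟩ := exists_K hm
  obtain ⟨S, hSm, hSv, hS⟩ := h
  refine ⟨nextS K S, measurableSet_nextS hK hSm, volume_nextS hK hSm hSv, fun A h0 h1 => ?_⟩
  obtain ⟨w, hwP, hw2⟩ := exists_short (Nat.succ_pos m) A h0 h1
  obtain ⟨g₁, hg₁⟩ := exists_compl hm w hwP
  -- the matrix with first column `b = A w`
  obtain ⟨B, hB⟩ : ∃ B, B = A * rl g₁ := ⟨_, rfl⟩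
  have hBdet : B.det = A.det := by rw [hB, Matrix.det_mul, det_rl6, mul_one]
  obtain ⟨b, hb⟩ : ∃ b : Fin (m + 1) → ℝ, b = fun i => B i 0 := ⟨_, rfl⟩
  have hbw : ∀ i, b i = (A *ᵥ fun j => (w j : ℝ)) i := by
    intro i
    rw [hb, hB]
    change (A * rl g₁) i 0 = _
    rw [Matrix.mul_apply]
    refine Finset.sum_congr rfl fun k _ => ?_
    rw [rl_apply6, hg₁]
  have hb0 : b ≠ 0 := by
    intro h2
    have h3 : B.det = 0 := Matrix.det_eq_zero_of_column_eq_zero 0 fun i => by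
      have h4 := congrFun h2 i
      rw [hb] at h4
      exact h4
    rw [hBdet] at h3
    rw [h3, abs_zero] at h0
    exact lt_irrefl _ h0
  obtain ⟨M, hM⟩ : ∃ M, M = K b * B := ⟨_, rfl⟩
  have hMdet : |M.det| = |A.det| := by rw [hM, Matrix.det_mul, abs_mul, hK.det, one_mul, hBdet]
  have hM0 : ∀ i, M i 0 = (Pi.single 0 1 : Fin (m + 1) → ℝ) i := by
    intro i
    rw [← hK.map b hb0, hM, hb]
    rfl
  have hM00 : M 0 0 = 1 := by rw [hM0, Pi.single_eq_same]
  have hMs0 : ∀ i : Fin m, M i.succ 0 = 0 := fun i => by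
    rw [hM0, Pi.single_eq_of_ne (Fin.succ_ne_zero i)]
  have hA₂ : |(M.submatrix Fin.succ Fin.succ).det| = |A.det| := by
    rw [← det_col6 M hM00 hMs0, hMdet]
  obtain ⟨δ, hδ⟩ := hS (M.submatrix Fin.succ Fin.succ) (by rw [hA₂]; exact h0)
    (by rw [hA₂]; exact h1)
  let y : Fin m → ℤ := fun j => -⌊∑ k : Fin m, M 0 k.succ * rl δ k j⌋
  refine ⟨g₁ * G6 y δ, ?_⟩
  rw [rl_mul6, ← mul_assoc, ← hB]
  have hC0 : cols (B * rl (G6 y δ)) 0 = b := by
    funext i
    rw [hb]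
    exact mul_G6_zero y δ B i
  have hCs : ∀ (j : Fin m) (i : Fin (m + 1)),
      (K b *ᵥ cols (B * rl (G6 y δ)) j.succ) i = (M * rl (G6 y δ)) i j.succ := by
    intro j i
    rw [hM, Matrix.mul_assoc]
    rfl
  refine ⟨fun i => ?_, fun j => ?_, ?_⟩
  · rw [hC0, hbw]
    exact hw2 i
  · rw [hC0, hCs, mul_G6_succ, hM00, one_mul]
    change ((-⌊∑ k : Fin m, M 0 k.succ * rl δ k j⌋ : ℤ) : ℝ) +
      ∑ k : Fin m, M 0 k.succ * rl δ k j ∈ Set.Ico (0 : ℝ) 1
    generalize ∑ k : Fin m, M 0 k.succ * rl δ k j = z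
    have h2 := Int.fract_nonneg z
    have h3 := Int.fract_lt_one z
    rw [← Int.self_sub_floor] at h2 h3
    constructor
    · push_cast
      linarith
    · push_cast
      linarith
  · have h2 : (fun (j i : Fin m) =>
        (K (cols (B * rl (G6 y δ)) 0) *ᵥ cols (B * rl (G6 y δ)) j.succ) i.succ) =
        cols (M.submatrix Fin.succ Fin.succ * rl δ) := by
      funext j i
      rw [hC0, hCs, mul_G6_succ, hMs0, zero_mul, zero_add]
      rfl
    rw [h2]
    exact hδ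

theorem pm {m : ℕ} (hm : 0 < m) : PM m := by
  induction m with
  | zero => exact absurd hm (lt_irrefl _)
  | succ k ih =>
    rcases Nat.eq_zero_or_pos k with rfl | hk
    · exact pm_one
    · exact pm_succ hk (ih hk)

end Pool.Agent.Helper96.SZ
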